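import Pool.Agent.P.MP_c12391_an.R.Good

set_option autoImplicit false

open Metric Filter Topology

namespace Pool.Agent.P.MP_c12391_an.R

variable {Y : Type*} [NormedAddCommGroup Y] [NormedSpace ℝ Y]

theorem far (W E : Submodule ℝ Y) (hW : ¬ FiniteDimensional ℝ W) [FiniteDimensional ℝ E] :
    ∃ v ∈ W, ‖v‖ ≤ 2 ∧ ∀ y ∈ E, 1 / 4 ≤ ‖v - y‖ := by
  obtain ⟨v, hv, hsep⟩ := exists_seq_norm_le_one_le_norm_sub' (𝕜 := ℝ) (E := W) (c := 3 / 2)
    (by rw [Real.norm_eq_abs, abs_of_pos] <;> norm_num) (R := 2)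
    (by rw [Real.norm_eq_abs, abs_of_pos] <;> norm_num) hW
  by_contra hc
  push Not at hc
  have h1 : ∀ n, ∃ y : E, ‖(v n : Y) - y‖ < 1 / 4 := fun n => by
    obtain ⟨y, hy, hy2⟩ := hc (v n) (v n).2 (hv n)
    exact ⟨⟨y, hy⟩, hy2⟩
  choose y hy using h1
  have hb : ∀ n, y n ∈ closedBall (0 : E) 3 := fun n => by
    rw [mem_closedBall_zero_iff]
    have a1 : ‖(y n : Y)‖ ≤ ‖(v n : Y)‖ + ‖(v n : Y) - y n‖ := by
      have := norm_sub_le (v n : Y) ((v n : Y) - y n)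
      rwa [sub_sub_cancel] at this
    have a2 : ‖(v n : Y)‖ ≤ 2 := hv n
    have a3 := hy n
    change ‖(y n : Y)‖ ≤ 3
    linarith
  have : ProperSpace E := FiniteDimensional.proper_real E
  obtain ⟨a, -, ψ, hψ, hlim⟩ := tendsto_subseq_of_bounded isBounded_closedBall hb
  obtain ⟨N, hN⟩ := Metric.cauchySeq_iff.1 hlim.cauchySeq (1 / 2) (by norm_num)
  have h2 := hN N le_rfl (N + 1) (Nat.le_succ N)
  have h3 := hsep (hψ (Nat.lt_succ_self N)).ne
  rw [dist_eq_norm] at h2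
  change ‖(y (ψ N) : Y) - y (ψ (N + 1))‖ < 1 / 2 at h2
  change 1 ≤ ‖(v (ψ N) : Y) - v (ψ (N + 1))‖ at h3
  have h4 : (v (ψ N) : Y) - v (ψ (N + 1)) = ((v (ψ N) : Y) - y (ψ N)) +
      ((y (ψ N) : Y) - y (ψ (N + 1))) - ((v (ψ (N + 1)) : Y) - y (ψ (N + 1))) := by abel
  rw [h4] at h3
  have h5 := norm_sub_le (((v (ψ N) : Y) - y (ψ N)) + ((y (ψ N) : Y) - y (ψ (N + 1))))
    ((v (ψ (N + 1)) : Y) - y (ψ (N + 1)))
  have h6 := norm_add_le ((v (ψ N) : Y) - y (ψ N)) ((y (ψ N) : Y) - y (ψ (N + 1)))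
  linarith [hy (ψ N), hy (ψ (N + 1))]

theorem step (h : ¬ FiniteDimensional ℝ Y) (s : Finset (Y × StrongDual ℝ Y)) :
    ∃ p : Y × StrongDual ℝ Y, (‖p.1‖ ≤ 2 ∧ ‖p.2‖ ≤ 4 ∧ p.2 p.1 = 1) ∧
      ∀ q ∈ s, q.2 p.1 = 0 ∧ p.2 q.1 = 0 := by
  classical
  let T : Y →ₗ[ℝ] (s → ℝ) := LinearMap.pi fun q : s => q.1.2.toLinearMap
  have hW : ¬ FiniteDimensional ℝ (LinearMap.ker T) := by
    intro hf
    have : Module.Finite ℝ (Y ⧸ LinearMap.ker T) := T.quotKerEquivRange.symm.finiteDimensional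
    exact h (Module.Finite.of_submodule_quotient (LinearMap.ker T))
  let E : Submodule ℝ Y := Submodule.span ℝ (Set.range fun q : s => q.1.1)
  have : FiniteDimensional ℝ E := FiniteDimensional.span_of_finite ℝ (Set.finite_range _)
  obtain ⟨v, hv, hv2, hfar⟩ := far (LinearMap.ker T) E hW
  have hq : 1 / 4 ≤ ‖(Submodule.Quotient.mk v : Y ⧸ E)‖ := by
    refine le_of_forall_pos_lt_add fun ε hε => ?_
    obtain ⟨m, hm, hm2⟩ := Submodule.Quotient.norm_mk_lt (Submodule.Quotient.mk v : Y ⧸ E) hε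
    have h1 : v - m ∈ E := (Submodule.Quotient.eq E).1 hm.symm
    have h2 := hfar _ h1
    rw [sub_sub_cancel] at h2
    linarith
  obtain ⟨g, hg, hgv⟩ := exists_dual_vector'' ℝ (Submodule.Quotient.mk v : Y ⧸ E)
  set r := ‖(Submodule.Quotient.mk v : Y ⧸ E)‖ with hr
  have hr0 : 0 < r := by linarith
  refine ⟨(v, r⁻¹ • g.comp E.mkQL), ⟨hv2, ?_, ?_⟩, fun q hq' => ⟨?_, ?_⟩⟩
  · refine ContinuousLinearMap.opNorm_le_bound _ (by norm_num) fun x => ?_
    change ‖r⁻¹ * g (Submodule.Quotient.mk x)‖ ≤ _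
    have h1 := g.le_opNorm (Submodule.Quotient.mk x)
    have h2 := Submodule.Quotient.norm_mk_le E x
    have h3 : ‖g (Submodule.Quotient.mk x)‖ ≤ ‖x‖ :=
      h1.trans ((mul_le_of_le_one_left (norm_nonneg _) hg).trans h2)
    have h4 : r⁻¹ ≤ 4 := by
      rw [inv_le_comm₀ hr0 (by norm_num)]
      linarith
    rw [norm_mul, Real.norm_eq_abs, abs_of_pos (inv_pos.2 hr0)]
    exact mul_le_mul h4 h3 (norm_nonneg _) (by norm_num)
  · change r⁻¹ * g (Submodule.Quotient.mk v) = 1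
    rw [hgv]
    exact inv_mul_cancel₀ hr0.ne'
  · exact congrFun (LinearMap.mem_ker.1 hv) ⟨q, hq'⟩
  · change r⁻¹ * g (Submodule.Quotient.mk q.1) = 0
    have : (Submodule.Quotient.mk q.1 : Y ⧸ E) = 0 :=
      (Submodule.Quotient.mk_eq_zero E).2 (Submodule.subset_span ⟨⟨q, hq'⟩, rfl⟩)
    rw [this, map_zero, mul_zero]

theorem exists_biorth (h : ¬ FiniteDimensional ℝ Y) :
    ∃ (e : ℕ → Y) (φ : ℕ → StrongDual ℝ Y), (∀ n, ‖e n‖ ≤ 2) ∧ (∀ n, ‖φ n‖ ≤ 4) ∧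
      ∀ m n, φ m (e n) = if m = n then 1 else 0 := by
  obtain ⟨f, hf, hr⟩ := exists_seq_of_forall_finset_exists
    (fun p : Y × StrongDual ℝ Y => ‖p.1‖ ≤ 2 ∧ ‖p.2‖ ≤ 4 ∧ p.2 p.1 = 1)
    (fun q p => q.2 p.1 = 0 ∧ p.2 q.1 = 0) fun s _ => step h s
  refine ⟨fun n => (f n).1, fun n => (f n).2, fun n => (hf n).1, fun n => (hf n).2.1,
    fun m n => ?_⟩
  rcases lt_trichotomy m n with h1 | rfl | h1
  · rw [if_neg h1.ne]; exact (hr m n h1).1
  · rw [if_pos rfl]; exact (hf m).2.2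
  · rw [if_neg h1.ne']; exact (hr n m h1).2

theorem homog (p : Seminorm ℝ Y) (q : Y → ℝ) (hq : ∀ (t : ℝ) (x : Y), 0 < t → q (t • x) = t * q x)
    {M : ℝ} (hM : 0 < M) (h : ∀ x, p x ≤ 1 → q x ≤ M) (x : Y) : q x ≤ M * p x := by
  refine le_of_forall_pos_le_add fun ε hε => ?_
  have ht : 0 < p x + ε / M := by have := apply_nonneg p x; positivity
  have h1 := h ((p x + ε / M)⁻¹ • x) (by
    rw [map_smul_eq_mul, Real.norm_eq_abs, abs_of_pos (inv_pos.2 ht), inv_mul_le_iff₀ ht]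
    have : 0 < ε / M := by positivity
    linarith)
  rw [hq _ _ (inv_pos.2 ht), inv_mul_le_iff₀ ht] at h1
  have h2 : (p x + ε / M) * M = M * p x + ε := by field_simp
  linarith

/-- An equivalent norm whose ball has the points `u i j` strongly exposed by `g i j`. -/
theorem exists_p (u : ℕ → ℕ → Y) (g : ℕ → ℕ → StrongDual ℝ Y) (hu : ∀ i j, ‖u i j‖ ≤ 4)
    (hg : ∀ i j, ‖g i j‖ ≤ 8) (hus : ∀ i j, u j i = - u i j) (hgs : ∀ i j, g j i = - g i j)
    (h2 : ∀ i j, i ≠ j → g i j (u i j) = 2)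
    (h1 : ∀ i j k l, i ≠ j → k ≠ l → (i, j) ≠ (k, l) → g i j (u k l) ≤ 1) :
    ∃ p : Seminorm ℝ Y, (∀ x, p x ≤ 8 * ‖x‖) ∧ (∀ x, ‖x‖ ≤ 4 * p x) ∧
      (∀ i j, i ≠ j → p (u i j) ≤ 1) ∧ (∀ i j x, i ≠ j → g i j x ≤ 2 * p x) ∧
      ∀ i j x, i ≠ j → p x ≤ 1 → ‖x - u i j‖ + 8 * g i j x ≤ 16 := by
  let C : Set Y := {x | ‖x‖ ≤ 4 ∧ ∀ i j, i ≠ j → ‖x - u i j‖ + 8 * g i j x ≤ 16}
  have hconv : Convex ℝ C := by
    intro x hx y hy a b ha hb hab
    refine ⟨?_, fun i j hij => ?_⟩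
    · have := norm_add_le (a • x) (b • y)
      rw [norm_smul, norm_smul, Real.norm_of_nonneg ha, Real.norm_of_nonneg hb] at this
      nlinarith [hx.1, hy.1]
    · have e1 : a • x + b • y - u i j = a • (x - u i j) + b • (y - u i j) := by
        rw [smul_sub, smul_sub, sub_add_sub_comm, ← add_smul, hab, one_smul]
      have := norm_add_le (a • (x - u i j)) (b • (y - u i j))
      rw [norm_smul, norm_smul, Real.norm_of_nonneg ha, Real.norm_of_nonneg hb, ← e1] at this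
      rw [map_add, map_smul, map_smul, smul_eq_mul, smul_eq_mul]
      nlinarith [hx.2 i j hij, hy.2 i j hij]
  have hneg : ∀ ⦃x⦄, x ∈ C → -x ∈ C := by
    intro x hx
    refine ⟨by simpa using hx.1, fun i j hij => ?_⟩
    have := hx.2 j i hij.symm
    rw [hus i j, hgs i j] at this
    have e1 : ‖-x - u i j‖ = ‖x - -u i j‖ := by
      rw [← norm_neg]; congr 1; abel
    rw [e1, map_neg]
    simpa using this
  have hball : ∀ x : Y, ‖x‖ ≤ 1 / 8 → x ∈ C := by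
    intro x hx
    refine ⟨by linarith, fun i j _ => ?_⟩
    have a1 := norm_sub_le x (u i j)
    have a2 : g i j x ≤ 8 * ‖x‖ := ((Real.le_norm_self _).trans ((g i j).le_opNorm x)).trans
      (mul_le_mul_of_nonneg_right (hg i j) (norm_nonneg _))
    linarith [hu i j]
  have hnhds : C ∈ 𝓝 (0 : Y) :=
    mem_of_superset (closedBall_mem_nhds 0 (by norm_num : (0 : ℝ) < 1 / 8))
      fun x hx => hball x (by simpa using hx)
  have hclosed : IsClosed C := by
    refine (isClosed_le continuous_norm continuous_const).inter ?_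
    change IsClosed {x : Y | ∀ i j, i ≠ j → ‖x - u i j‖ + 8 * g i j x ≤ 16}
    simp only [Set.ofPred_forall]
    refine isClosed_iInter fun i => isClosed_iInter fun j => isClosed_iInter fun _ =>
      isClosed_le (by fun_prop) continuous_const
  let p : Seminorm ℝ Y := gaugeSeminorm ((balanced_iff_neg_mem hconv).2 hneg) hconv
    (absorbent_nhds_zero hnhds)
  have hp : ∀ x, p x ≤ 1 ↔ x ∈ C := fun x => by
    have := gauge_le_one_iff_mem_closure (x := x) hconv hnhds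
    rwa [hclosed.closure_eq] at this
  refine ⟨p, fun x => ?_, fun x => ?_, fun i j hij => (hp _).2 ⟨hu i j, fun k l hkl => ?_⟩,
    fun i j x hij => ?_, fun i j x hij hx => ((hp x).1 hx).2 i j hij⟩
  · refine homog (normSeminorm ℝ Y) p (fun t x ht => ?_) (by norm_num) (fun x hx => ?_) x
    · rw [map_smul_eq_mul, Real.norm_of_nonneg ht.le]
    · have a1 := (hp ((1 / 8 : ℝ) • x)).2 (hball _ (by
        rw [norm_smul, Real.norm_of_nonneg (by norm_num)]
        change ‖x‖ ≤ 1 at hx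
        linarith))
      rw [map_smul_eq_mul, Real.norm_of_nonneg (by norm_num)] at a1
      linarith
  · refine homog p (fun x => ‖x‖) (fun t x ht => ?_) (by norm_num) (fun x hx => ((hp x).1 hx).1) x
    rw [norm_smul, Real.norm_of_nonneg ht.le]
  · by_cases hc : (k, l) = (i, j)
    · obtain ⟨rfl, rfl⟩ := Prod.mk.inj hc
      rw [h2 k l hkl]; norm_num
    · have a1 := h1 k l i j hkl hij hc
      have a2 := norm_sub_le (u i j) (u k l)
      linarith [hu i j, hu k l]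
  · refine homog p (g i j) (fun t x _ => by rw [map_smul, smul_eq_mul]) (by norm_num)
      (fun x hx => ?_) x
    have a1 := ((hp x).1 hx).2 i j hij
    linarith [norm_nonneg (x - u i j)]

end Pool.Agent.P.MP_c12391_an.R
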