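import Pool.Agent.P.MP_c12391_an.Main

set_option autoImplicit false

open Metric Filter Topology

namespace Pool.Agent.P.MP_c12391_an.R

/-- Any `N` functionals of norm at most one are smaller than `ε` on some slice of the ball. -/
def Good (Z : Type*) [NormedAddCommGroup Z] [NormedSpace ℝ Z] (N : ℕ) (ε : ℝ) : Prop :=
  ∀ f : Fin N → StrongDual ℝ Z, (∀ k, ‖f k‖ ≤ 1) →
    ∃ (g : StrongDual ℝ Z) (α : ℝ), 0 < α ∧
      ∀ x : Z, ‖x‖ ≤ 1 → ‖g‖ - α < g x → ∀ k, |f k x| < ε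

section
variable {Z : Type*} [NormedAddCommGroup Z] [NormedSpace ℝ Z]

theorem apply_le (g : StrongDual ℝ Z) (x : Z) (hx : ‖x‖ ≤ 1) : g x ≤ ‖g‖ := by
  have h1 := g.le_opNorm x
  have h2 : g x ≤ ‖g x‖ := Real.le_norm_self _
  nlinarith [norm_nonneg g]

theorem exists_near (g : StrongDual ℝ Z) {α : ℝ} (hα : 0 < α) :
    ∃ x : Z, ‖x‖ ≤ 1 ∧ ‖g‖ - α < g x := by
  by_contra h
  push Not at h
  have h0 : 0 ≤ ‖g‖ - α := by simpa using h 0 (by simp)
  have : ‖g‖ ≤ ‖g‖ - α := by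
    refine ContinuousLinearMap.opNorm_le_of_unit_norm h0 fun x hx => ?_
    rw [Real.norm_eq_abs, abs_le]
    have h1 := h x hx.le
    have h2 := h (-x) (by simpa using hx.le)
    rw [map_neg] at h2
    constructor <;> linarith
  linarith

theorem sSup_eq (g : StrongDual ℝ Z) : sSup (g '' closedBall (0 : Z) 1) = ‖g‖ := by
  apply csSup_eq_of_forall_le_of_forall_lt_exists_gt
  · exact ⟨g 0, 0, by simp, rfl⟩
  · rintro _ ⟨x, hx, rfl⟩
    exact apply_le g x (by simpa using hx)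
  · intro w hw
    obtain ⟨x, hx, hx2⟩ := exists_near g (sub_pos.2 hw)
    exact ⟨g x, ⟨x, by simpa using hx, rfl⟩, by linarith⟩

theorem mem_slice (g : StrongDual ℝ Z) (α : ℝ) (x : Z) :
    x ∈ slice (closedBall (0 : Z) 1) g α ↔ ‖x‖ ≤ 1 ∧ ‖g‖ - α < g x := by
  simp [slice, sSup_eq]

theorem weak_basis (U : Set (WeakSpace ℝ Z)) (hU : IsOpen U) (h0 : toWeakSpace ℝ Z 0 ∈ U) :
    ∃ (N : ℕ) (f : Fin N → StrongDual ℝ Z) (ε : ℝ), 0 < ε ∧ (∀ k, ‖f k‖ ≤ 1) ∧
      ∀ x : Z, (∀ k, |f k x| < ε) → toWeakSpace ℝ Z x ∈ U := by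
  classical
  obtain ⟨V, hV, rfl⟩ := isOpen_induced_iff.mp hU
  obtain ⟨I, t, ht, hsub⟩ := isOpen_pi_iff.mp hV _ h0
  have h1 : ∀ f : I, ∃ ε : ℝ, 0 < ε ∧ ∀ s : ℝ, |s| < ε * (‖f.1‖ + 1) → s ∈ t f.1 := by
    intro f
    obtain ⟨ho, hm⟩ := ht f.1 f.2
    change f.1 0 ∈ t f.1 at hm
    rw [map_zero] at hm
    obtain ⟨δ, hδ, hb⟩ := Metric.isOpen_iff.mp ho 0 hm
    have hp : 0 < ‖f.1‖ + 1 := by positivity
    refine ⟨δ / (‖f.1‖ + 1), by positivity, fun s hs => hb ?_⟩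
    rw [div_mul_cancel₀ _ hp.ne'] at hs
    simpa using hs
  choose e he hes using h1
  obtain ⟨ε, hε, hεe⟩ : ∃ ε : ℝ, 0 < ε ∧ ∀ f : I, ε ≤ e f := by
    rcases isEmpty_or_nonempty I with h | h
    · exact ⟨1, one_pos, fun f => isEmptyElim f⟩
    · obtain ⟨f0, hf0⟩ := Finite.exists_min e
      exact ⟨e f0, he f0, hf0⟩
  let q := (Fintype.equivFin I).symm
  refine ⟨Fintype.card I, fun k => (‖(q k).1‖ + 1)⁻¹ • (q k).1, ε, hε, fun k => ?_,
    fun x hx => hsub fun f hf => ?_⟩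
  · have hp : 0 < ‖(q k).1‖ + 1 := by positivity
    rw [norm_smul, Real.norm_eq_abs, abs_of_pos (inv_pos.2 hp), inv_mul_le_iff₀ hp]
    linarith
  · change f x ∈ t f
    apply hes ⟨f, hf⟩
    have h2 := hx (q.symm ⟨f, hf⟩)
    simp only [Equiv.apply_symm_apply, smul_apply, smul_eq_mul] at h2
    have hp : 0 < ‖f‖ + 1 := by positivity
    rw [abs_mul, abs_of_pos (inv_pos.2 hp), inv_mul_lt_iff₀ hp] at h2
    have h3 := hεe ⟨f, hf⟩
    change |f x| < e ⟨f, hf⟩ * (‖f‖ + 1)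
    nlinarith

theorem zero_iff : ZeroIsAPEP Z ↔ ∀ (N : ℕ) (ε : ℝ), 0 < ε → Good Z N ε := by
  constructor
  · rintro ⟨-, h⟩ N ε hε f -
    have ho : IsOpen {x : WeakSpace ℝ Z | ∀ k, |f k ((toWeakSpace ℝ Z).symm x)| < ε} := by
      rw [Set.ofPred_forall]
      exact isOpen_iInter_of_finite fun k =>
        isOpen_lt (weak_eval_continuous (f k)).abs continuous_const
    obtain ⟨g, α, hα, -, hsub⟩ := h _ ho (by intro k; simpa using hε)
    refine ⟨g, α, hα, fun x hx hx2 k => ?_⟩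
    have := (hsub ((mem_slice g α x).2 ⟨hx, hx2⟩)).2 k
    simpa using this
  · intro h
    refine ⟨by simp, fun U hU h0 => ?_⟩
    obtain ⟨N, f, ε, hε, hf, hsub⟩ := weak_basis U hU h0
    obtain ⟨g, α, hα, hg⟩ := h N ε hε f hf
    obtain ⟨x, hx⟩ := exists_near g hα
    refine ⟨g, α, hα, ⟨x, (mem_slice g α x).2 hx⟩, fun y hy => ?_⟩
    obtain ⟨h1, h2⟩ := (mem_slice g α y).1 hy
    exact ⟨by simpa using h1, hsub y (hg y h1 h2)⟩

end

section
variable {I : Type*} {X : I → Type*} [∀ i, NormedAddCommGroup (X i)] [∀ i, NormedSpace ℝ (X i)]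

theorem good_of_sum [Nonempty I] {N : ℕ} {ε : ℝ} (h : Good (lp X 1) N ε) :
    ∃ i, Good (X i) N ε := by
  classical
  by_contra hc
  push Not at hc
  simp only [Good, not_forall] at hc
  choose f hf hbad using hc
  let F : Fin N → StrongDual ℝ (lp X 1) := fun k =>
    (lp.tsumCLM ℝ I ℝ).comp (lp.mapCLM 1 (fun i => f i k) zero_le_one fun i => hf i k)
  have hF : ∀ k, ‖F k‖ ≤ 1 := fun k => by
    refine (ContinuousLinearMap.opNorm_comp_le _ _).trans ?_
    have h1 := lp.norm_tsumCLM_le (α := I) (𝕜 := ℝ) (E := ℝ)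
    have h2 := lp.norm_mapCLM_le 1 (fun i => f i k) zero_le_one fun i => hf i k
    exact mul_le_one₀ h1 (norm_nonneg _) h2
  have hFs : ∀ k i (x : X i), F k (lp.single 1 i x) = f i k x := by
    intro k i x
    change ∑' j, f j k (lp.single (E := X) 1 i x j) = _
    rw [tsum_eq_single i]
    · rw [lp.single_apply_self]
    · intro j hj
      rw [lp.single_apply_ne 1 i x hj, map_zero]
  obtain ⟨G, α, hα, hG⟩ := h F hF
  let Gi : ∀ i, StrongDual ℝ (X i) := fun i => G.comp (lp.singleContinuousLinearMap ℝ X 1 i)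
  have hex : ∃ i, ‖G‖ - α / 2 < ‖Gi i‖ := by
    by_contra hn
    push Not at hn
    have h0 : 0 ≤ ‖G‖ - α / 2 := (norm_nonneg _).trans (hn (Classical.arbitrary I))
    obtain ⟨z, hz, hz2⟩ := exists_near G (half_pos hα)
    have h1 : HasSum (fun i => G (lp.single 1 i (z i))) (G z) :=
      (lp.hasSum_single (by norm_num) z).mapL G
    have h2 : HasSum (fun i => (‖G‖ - α / 2) * ‖z i‖) ((‖G‖ - α / 2) * ‖z‖) := by
      have := lp.hasSum_norm (p := 1) (by norm_num) z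
      simp only [ENNReal.toReal_one, Real.rpow_one] at this
      exact this.mul_left _
    have h3 := hasSum_le (fun i => by
      have a1 : Gi i (z i) ≤ ‖Gi i‖ * ‖z i‖ := (Real.le_norm_self _).trans ((Gi i).le_opNorm _)
      exact a1.trans (mul_le_mul_of_nonneg_right (hn i) (norm_nonneg _))) h1 h2
    nlinarith
  obtain ⟨i, hi⟩ := hex
  apply hbad i
  refine ⟨Gi i, α / 2, half_pos hα, fun x hx hx2 k => ?_⟩
  rw [← hFs]
  refine hG _ (by rwa [lp.norm_single (by norm_num)]) ?_ k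
  change _ < Gi i x
  linarith

theorem sum_of_good {N : ℕ} {ε : ℝ} (hε : 0 < ε) (i : I) [Nontrivial (X i)]
    (h : Good (X i) N ε) : Good (lp X 1) N (2 * ε) := by
  classical
  intro F hF
  let f : Fin N → StrongDual ℝ (X i) := fun k =>
    (F k).comp (lp.singleContinuousLinearMap ℝ X 1 i)
  have hf : ∀ k, ‖f k‖ ≤ 1 := fun k => by
    refine ContinuousLinearMap.opNorm_le_bound _ zero_le_one fun x => ?_
    have h1 := (F k).le_opNorm (lp.single 1 i x)
    rw [lp.norm_single (by norm_num)] at h1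
    exact h1.trans (mul_le_mul_of_nonneg_right (hF k) (norm_nonneg _))
  obtain ⟨g, α, hα, hg1, hg⟩ : ∃ (g : StrongDual ℝ (X i)) (α : ℝ), 0 < α ∧ ‖g‖ = 1 ∧
      ∀ x, ‖x‖ ≤ 1 → 1 - α < g x → ∀ k, |f k x| < ε := by
    obtain ⟨g, α, hα, hg⟩ := h f hf
    by_cases h0 : g = 0
    · obtain ⟨v, hv⟩ := exists_ne (0 : X i)
      obtain ⟨g', hg', -⟩ := exists_dual_vector ℝ v (norm_ne_zero_iff.2 hv)
      exact ⟨g', 1, one_pos, hg', fun x hx _ => hg x hx (by simpa [h0] using hα)⟩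
    · have hp : 0 < ‖g‖ := norm_pos_iff.2 h0
      refine ⟨‖g‖⁻¹ • g, α / ‖g‖, by positivity, by simp [norm_smul, hp.ne'],
        fun x hx hx2 => hg x hx ?_⟩
      simp only [smul_apply, smul_eq_mul] at hx2
      have h3 := mul_lt_mul_of_pos_left hx2 hp
      rw [mul_inv_cancel_left₀ hp.ne', mul_sub, mul_one, mul_div_cancel₀ _ hp.ne'] at h3
      exact h3
  let G : StrongDual ℝ (lp X 1) := g.comp (lp.evalCLM ℝ X 1 i)
  have hG : ∀ z, G z = g (z i) := fun z => rfl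
  have hG1 : 1 ≤ ‖G‖ := by
    rw [← hg1]
    refine ContinuousLinearMap.opNorm_le_bound _ (norm_nonneg _) fun x => ?_
    have h1 := G.le_opNorm (lp.single 1 i x)
    rwa [lp.norm_single (by norm_num), hG, lp.single_apply_self] at h1
  refine ⟨G, min α ε, lt_min hα hε, fun z hz hz2 k => ?_⟩
  rw [hG] at hz2
  have a1 := min_le_left α ε
  have a2 := min_le_right α ε
  have hzi : ‖z i‖ ≤ 1 := (lp.norm_apply_le_norm one_ne_zero z i).trans hz
  have h1 := hg (z i) hzi (by linarith) k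
  have h2 : g (z i) ≤ ‖z i‖ := by
    have := (Real.le_norm_self _).trans (g.le_opNorm (z i))
    rwa [hg1, one_mul] at this
  have hb := lp.norm_sub_norm_compl_sub_single (p := 1) (by norm_num) z {i}
  simp only [ENNReal.toReal_one, Real.rpow_one, Finset.sum_singleton] at hb
  have h3 : |F k (z - lp.single 1 i (z i))| ≤ ‖z - lp.single 1 i (z i)‖ := by
    have := (F k).le_opNorm (z - lp.single 1 i (z i))
    exact this.trans (mul_le_of_le_one_left (norm_nonneg _) (hF k))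
  have h4 : F k z = F k (z - lp.single 1 i (z i)) + f k (z i) := by
    rw [map_sub]
    change _ = _ - _ + F k (lp.single 1 i (z i))
    ring
  rw [h4]
  have := abs_add_le (F k (z - lp.single 1 i (z i))) (f k (z i))
  linarith

end

end Pool.Agent.P.MP_c12391_an.R
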