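import Pool.Agent.P.MP_c12391_an.R.Biorth

set_option autoImplicit false

open Metric Filter Topology

universe u v

namespace Pool.Agent.P.MP_c12391_an.R

/-- A copy of a space, to carry a new norm. -/
def Copy (Y : Type v) : Type v := Y

theorem renorm {Y : Type v} [NormedAddCommGroup Y] [NormedSpace ℝ Y] (N : Seminorm ℝ Y)
    (a b : ℝ) (ha : ∀ y, ‖y‖ ≤ a * N y) (hb : ∀ y, N y ≤ b * ‖y‖) :
    ∃ (Z : Type v) (_ : NormedAddCommGroup Z) (_ : NormedSpace ℝ Z) (e : Z ≃L[ℝ] Y),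
      ∀ z, ‖z‖ = N (e z) := by
  let : AddCommGroup (Copy Y) := inferInstanceAs (AddCommGroup Y)
  let : Module ℝ (Copy Y) := inferInstanceAs (Module ℝ Y)
  let n : AddGroupNorm (Copy Y) :=
    { toFun := fun x => N x
      map_zero' := map_zero N
      add_le' := fun x y => map_add_le_add N x y
      neg' := fun x => map_neg_eq_map N x
      eq_zero_of_map_eq_zero' := fun x hx => by
        have h1 := ha x
        have h2 : N x = 0 := hx
        rw [h2, mul_zero] at h1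
        exact norm_le_zero_iff.1 h1 }
  let : NormedAddCommGroup (Copy Y) := n.toNormedAddCommGroup
  let : NormedSpace ℝ (Copy Y) := ⟨fun c x => (map_smul_eq_mul N c x).le⟩
  let l : Copy Y ≃ₗ[ℝ] Y := LinearEquiv.refl ℝ Y
  exact ⟨Copy Y, inferInstance, inferInstance,
    l.toContinuousLinearEquivOfBounds a b (fun x => ha x) (fun x => hb x), fun z => rfl⟩

section
variable {Z W : Type*} [NormedAddCommGroup Z] [NormedSpace ℝ Z] [NormedAddCommGroup W]
  [NormedSpace ℝ W]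

theorem comp_le (g : StrongDual ℝ W) (A : Z →L[ℝ] W) (hA : ∀ x, ‖A x‖ ≤ ‖x‖) :
    ‖g.comp A‖ ≤ ‖g‖ :=
  ContinuousLinearMap.opNorm_le_bound _ (norm_nonneg _) fun x =>
    (g.le_opNorm (A x)).trans (mul_le_mul_of_nonneg_left (hA x) (norm_nonneg _))

theorem normalize [Nontrivial Z] (T : Z ≃L[ℝ] W) {c : ℝ}
    (h : ‖(T : Z →L[ℝ] W)‖ * ‖(T.symm : W →L[ℝ] Z)‖ ≤ c) :
    ∃ (A : Z →L[ℝ] W) (B : W →L[ℝ] Z), (∀ x, B (A x) = x) ∧ (∀ y, A (B y) = y) ∧
      (∀ x, ‖A x‖ ≤ ‖x‖) ∧ ∀ y, ‖B y‖ ≤ c * ‖y‖ := by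
  have hp : 0 < ‖(T : Z →L[ℝ] W)‖ := T.norm_pos
  refine ⟨‖(T : Z →L[ℝ] W)‖⁻¹ • (T : Z →L[ℝ] W), ‖(T : Z →L[ℝ] W)‖ • (T.symm : W →L[ℝ] Z),
    fun x => ?_, fun y => ?_, fun x => ?_, fun y => ?_⟩
  · simp [smul_smul, hp.ne']
  · simp [smul_smul, hp.ne']
  · rw [smul_apply, norm_smul, Real.norm_of_nonneg (inv_pos.2 hp).le, inv_mul_le_iff₀ hp]
    exact (T : Z →L[ℝ] W).le_opNorm x
  · rw [smul_apply, norm_smul, Real.norm_of_nonneg hp.le]
    have h1 := (T.symm : W →L[ℝ] Z).le_opNorm y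
    have h2 := mul_le_mul_of_nonneg_left h1 hp.le
    have h3 := mul_le_mul_of_nonneg_right h (norm_nonneg y)
    nlinarith

theorem transfer [Nontrivial Z] (T : Z ≃L[ℝ] W)
    (h : ‖(T : Z →L[ℝ] W)‖ * ‖(T.symm : W →L[ℝ] Z)‖ ≤ 1) {N : ℕ} {ε : ℝ} (hZ : Good Z N ε) :
    Good W N ε := by
  obtain ⟨A, B, hBA, hAB, hA, hB⟩ := normalize T h
  simp only [one_mul] at hB
  intro f hf
  obtain ⟨g, α, hα, hg⟩ := hZ (fun k => (f k).comp A) fun k => (comp_le _ A hA).trans (hf k)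
  have h1 : ‖g‖ ≤ ‖g.comp B‖ := by
    have : g = (g.comp B).comp A := by ext x; simp [hBA]
    conv_lhs => rw [this]
    exact comp_le _ A hA
  refine ⟨g.comp B, α, hα, fun y hy hy2 k => ?_⟩
  have h2 := hg (B y) ((hB y).trans hy) (by
    change _ < g (B y) at hy2
    linarith) k
  simpa [hAB] using h2

theorem fin_norming [FiniteDimensional ℝ W] :
    ∃ (N : ℕ) (η : ℝ) (f : Fin N → StrongDual ℝ W), 0 < η ∧ (∀ k, ‖f k‖ ≤ 1) ∧
      ∀ (y : W) (r : ℝ), 0 < r → (∀ k, |f k y| < η * r) → ‖y‖ ≤ r := by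
  let e : W ≃L[ℝ] (Fin (Module.finrank ℝ W) → ℝ) :=
    (Module.finBasis ℝ W).equivFun.toContinuousLinearEquiv
  set a := ‖e.toContinuousLinearMap‖ + 1 with ha
  set b := ‖e.symm.toContinuousLinearMap‖ + 1 with hb
  have ha0 : 0 < a := by positivity
  have hb0 : 0 < b := by positivity
  refine ⟨_, (a * b)⁻¹, fun k => a⁻¹ • (ContinuousLinearMap.proj k).comp e.toContinuousLinearMap,
    by positivity, fun k => ?_, fun y r hr hy => ?_⟩
  · refine ContinuousLinearMap.opNorm_le_bound _ zero_le_one fun x => ?_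
    change ‖a⁻¹ * e x k‖ ≤ _
    rw [norm_mul, Real.norm_of_nonneg (inv_pos.2 ha0).le, inv_mul_le_iff₀ ha0]
    have h1 := norm_le_pi_norm (e x) k
    have h2 : ‖e x‖ ≤ _ := e.toContinuousLinearMap.le_opNorm x
    nlinarith [norm_nonneg x]
  · have h1 : ‖e y‖ ≤ r / b := by
      refine (pi_norm_le_iff_of_nonneg (by positivity)).2 fun k => ?_
      have h2 := hy k
      change |a⁻¹ * e y k| < _ at h2
      rw [abs_mul, abs_of_pos (inv_pos.2 ha0), inv_mul_lt_iff₀ ha0] at h2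
      have h3 : a * ((a * b)⁻¹ * r) = r / b := by field_simp
      rw [Real.norm_eq_abs, ← h3]
      exact h2.le
    have h2 : ‖e.symm (e y)‖ ≤ _ := e.symm.toContinuousLinearMap.le_opNorm (e y)
    rw [e.symm_apply_apply] at h2
    have h3 : b * (r / b) = r := by field_simp
    have h4 : ‖e.symm.toContinuousLinearMap‖ * ‖e y‖ ≤ b * (r / b) :=
      mul_le_mul (by linarith) h1 (norm_nonneg _) hb0.le
    linarith

theorem not_good_fin [FiniteDimensional ℝ W] (c : ℝ) :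
    ∃ (N : ℕ) (ε : ℝ), 0 < ε ∧ ∀ (V : Type v) [NormedAddCommGroup V] [NormedSpace ℝ V]
      [Nontrivial V] (T : V ≃L[ℝ] W),
      ‖(T : V →L[ℝ] W)‖ * ‖(T.symm : W →L[ℝ] V)‖ ≤ c → ¬ Good V N ε := by
  obtain ⟨N, η, f, hη, hf, hn⟩ := fin_norming (W := W)
  have hc : 0 < |c| + 1 := by positivity
  refine ⟨N, η * (|c| + 1)⁻¹, by positivity, fun V _ _ _ T hT hG => ?_⟩
  obtain ⟨A, B, hBA, -, hA, hB⟩ := normalize T hT
  obtain ⟨g, α, hα, hg⟩ := hG (fun k => (f k).comp A) fun k => (comp_le _ A hA).trans (hf k)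
  obtain ⟨x, hx, hx2⟩ := exists_near g hα
  obtain ⟨w, hw, hw2⟩ := exists_unit_ge g x hx
  have h1 := hn (A w) _ (inv_pos.2 hc) (hg w hw.le (hx2.trans_le hw2))
  have h2 := hB (A w)
  rw [hBA, hw] at h2
  have h3 : c * ‖A w‖ ≤ |c| * (|c| + 1)⁻¹ :=
    (mul_le_mul_of_nonneg_right (le_abs_self c) (norm_nonneg _)).trans
      (mul_le_mul_of_nonneg_left h1 (abs_nonneg c))
  have h4 : |c| * (|c| + 1)⁻¹ < 1 := by
    rw [mul_inv_lt_iff₀ hc]; linarith
  linarith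

theorem nontrivial_of_not (h : ¬ ZeroIsAPEP Z) : Nontrivial Z := by
  by_contra hn
  rw [not_nontrivial_iff_subsingleton] at hn
  refine h (zero_iff.2 fun N ε hε f _ => ⟨0, 1, one_pos, fun x _ _ k => ?_⟩)
  rw [Subsingleton.elim x 0]
  simpa using hε

end

theorem necessary {I : Type u} [Nonempty I] {Y : Type v} [NormedAddCommGroup Y] [NormedSpace ℝ Y]
    {c : ℝ} (X : I → Type v) [∀ i, NormedAddCommGroup (X i)] [∀ i, NormedSpace ℝ (X i)]
    (h1 : ∀ i, Nonempty (X i ≃L[ℝ] Y))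
    (h2 : ∀ i j, ∃ T : X i ≃L[ℝ] X j,
      ‖(T : X i →L[ℝ] X j)‖ * ‖(T.symm : X j →L[ℝ] X i)‖ ≤ c)
    (h3 : ZeroIsAPEP (lp X 1)) (h4 : ∀ i, ¬ ZeroIsAPEP (X i)) :
    ¬ FiniteDimensional ℝ Y ∧ 1 < c := by
  have hn : ∀ i, Nontrivial (X i) := fun i => nontrivial_of_not (h4 i)
  have h5 : ∀ (N : ℕ) (ε : ℝ), 0 < ε → ∃ i, Good (X i) N ε := fun N ε hε =>
    good_of_sum (zero_iff.1 h3 N ε hε)
  obtain ⟨j⟩ := ‹Nonempty I›
  constructor
  · intro hf
    obtain ⟨e⟩ := h1 j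
    have : FiniteDimensional ℝ (X j) := e.symm.toLinearEquiv.finiteDimensional
    obtain ⟨N, ε, hε, hb⟩ := not_good_fin.{v} (W := X j) c
    obtain ⟨i, hi⟩ := h5 N ε hε
    obtain ⟨T, hT⟩ := h2 i j
    exact hb (X i) T hT hi
  · by_contra hc
    push Not at hc
    refine h4 j (zero_iff.2 fun N ε hε => ?_)
    obtain ⟨i, hi⟩ := h5 N ε hε
    obtain ⟨T, hT⟩ := h2 i j
    exact transfer T (hT.trans hc) hi

theorem close_pair {N : ℕ} (s : ℕ → Fin N → ℝ) {R η : ℝ} (hs : ∀ n, ‖s n‖ ≤ R) (hη : 0 < η) :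
    ∃ i j, i ≠ j ∧ ∀ k, |s i k - s j k| < η := by
  obtain ⟨a, -, ψ, hψ, hlim⟩ := tendsto_subseq_of_bounded (x := s)
    (isBounded_closedBall (x := 0) (r := R)) (fun n => by simpa using hs n)
  obtain ⟨M, hM⟩ := Metric.cauchySeq_iff.1 hlim.cauchySeq η hη
  have h2 := hM M le_rfl (M + 1) (Nat.le_succ M)
  refine ⟨ψ M, ψ (M + 1), (hψ (Nat.lt_succ_self M)).ne, fun k => ?_⟩
  have h3 := dist_le_pi_dist (s (ψ M)) (s (ψ (M + 1))) k
  rw [Real.dist_eq] at h3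
  exact h3.trans_lt h2

/-- The one-parameter family of renormings. -/
theorem family {Y : Type v} [NormedAddCommGroup Y] [NormedSpace ℝ Y]
    (h : ¬ FiniteDimensional ℝ Y) :
    ∃ N₀ : Y → ℝ, ∀ δ : ℝ, 0 < δ → δ < 1 →
      ∃ (Z : Type v) (_ : NormedAddCommGroup Z) (_ : NormedSpace ℝ Z) (e : Z ≃L[ℝ] Y),
        (∀ z, (1 - δ) * N₀ (e z) ≤ ‖z‖ ∧ ‖z‖ ≤ N₀ (e z)) ∧ ¬ Good Z 1 δ ∧
        ∀ N, Good Z N (2 * δ) := by
  obtain ⟨e, φ, he, hφ, hb⟩ := exists_biorth h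
  let u : ℕ → ℕ → Y := fun i j => e (i + 1) - e (j + 1)
  let g : ℕ → ℕ → StrongDual ℝ Y := fun i j => φ (i + 1) - φ (j + 1)
  have hgu : ∀ i j k l, g i j (u k l) = ((if i = k then 1 else 0) - if i = l then 1 else 0) -
      ((if j = k then 1 else 0) - if j = l then 1 else 0) := by
    intro i j k l
    simp only [g, u, sub_apply, map_sub, hb, Nat.add_right_cancel_iff]
    ring
  have hg2 : ∀ i j, i ≠ j → g i j (u i j) = 2 := fun i j hij => by
    rw [hgu]; simp [hij, hij.symm]; norm_num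
  obtain ⟨p, p1, p2, p3, p4, p5⟩ := exists_p u g
    (fun i j => (norm_sub_le _ _).trans (by linarith [he (i + 1), he (j + 1)]))
    (fun i j => (norm_sub_le _ _).trans (by linarith [hφ (i + 1), hφ (j + 1)]))
    (fun i j => by simp [u]) (fun i j => by simp [g]) hg2
    (fun i j k l hij hkl hne => by
      rw [hgu]
      have hne' : ¬ (i = k ∧ j = l) := fun hc => hne (Prod.ext hc.1 hc.2)
      split_ifs <;> first | (exfalso; omega) | norm_num)
  let P : Y →L[ℝ] Y := ContinuousLinearMap.id ℝ Y - (φ 0).smulRight (e 0)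
  have hP : ∀ y, P y = y - φ 0 y • e 0 := fun y => rfl
  have h00 : φ 0 (e 0) = 1 := by rw [hb, if_pos rfl]
  have hφP : ∀ y, φ 0 (P y) = 0 := fun y => by rw [hP, map_sub, map_smul, h00]; simp
  have hPe : P (e 0) = 0 := by rw [hP, h00]; simp
  have hPP : ∀ y, P (P y) = P y := fun y => by rw [hP (P y), hφP]; simp
  have hφu : ∀ i j, φ 0 (u i j) = 0 := fun i j => by simp [u, hb]
  have hPu : ∀ i j, P (u i j) = u i j := fun i j => by rw [hP, hφu]; simp
  have hgP : ∀ i j y, g i j (P y) = g i j y := fun i j y => by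
    rw [hP, map_sub, map_smul]
    simp [g, hb]
  have hφle : ∀ y, |φ 0 y| ≤ 4 * ‖y‖ := fun y =>
    ((φ 0).le_opNorm y).trans (mul_le_mul_of_nonneg_right (hφ 0) (norm_nonneg _))
  have hsm : ∀ t : ℝ, ‖t • e 0‖ ≤ 2 * |t| := fun t => by
    rw [norm_smul, Real.norm_eq_abs]
    nlinarith [he 0, abs_nonneg t]
  refine ⟨fun y => |φ 0 y| + p (P y), fun δ hδ hδ1 => ?_⟩
  let d : NNReal := ⟨1 - δ, by linarith⟩
  let Nδ : Seminorm ℝ Y := p.comp P.toLinearMap ⊔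
    ((normSeminorm ℝ ℝ).comp (φ 0).toLinearMap + d • p.comp P.toLinearMap)
  have hN : ∀ y, Nδ y = max (p (P y)) (|φ 0 y| + (1 - δ) * p (P y)) := fun y => rfl
  have hN1 : ∀ y, p (P y) ≤ Nδ y := fun y => by rw [hN]; exact le_max_left _ _
  have hN2 : ∀ y, |φ 0 y| + (1 - δ) * p (P y) ≤ Nδ y := fun y => by
    rw [hN]; exact le_max_right _ _
  have hN3 : ∀ y, Nδ y ≤ |φ 0 y| + p (P y) := fun y => by
    rw [hN]
    have := apply_nonneg p (P y)
    exact max_le (by linarith [abs_nonneg (φ 0 y)]) (by nlinarith)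
  have hN4 : ∀ y, |φ 0 y| ≤ Nδ y := fun y => by
    have := apply_nonneg p (P y)
    have := hN2 y
    nlinarith
  have hN5 : ∀ y, Nδ y ≤ 76 * ‖y‖ := fun y => by
    have a1 := hN3 y
    have a2 := p1 (P y)
    have a3 : ‖P y‖ ≤ ‖y‖ + ‖φ 0 y • e 0‖ := by rw [hP]; exact norm_sub_le _ _
    linarith [hsm (φ 0 y), hφle y]
  have hN6 : ∀ y, ‖y‖ ≤ 6 * Nδ y := fun y => by
    have a1 : ‖y‖ ≤ ‖P y‖ + ‖φ 0 y • e 0‖ := by
      have := norm_add_le (P y) (φ 0 y • e 0)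
      rwa [hP, sub_add_cancel, ← hP] at this
    linarith [hsm (φ 0 y), p2 (P y), hN1 y, hN4 y]
  obtain ⟨Z, _, _, E, hE⟩ := renorm Nδ 6 76 hN6 hN5
  have hEs : ∀ y, ‖E.symm y‖ = Nδ y := fun y => by rw [hE, E.apply_symm_apply]
  refine ⟨Z, inferInstance, inferInstance, E, fun z => ⟨?_, ?_⟩, fun hG => ?_, fun N f hf => ?_⟩
  · rw [hE]
    have := hN2 (E z)
    nlinarith [abs_nonneg (φ 0 (E z))]
  · rw [hE]; exact hN3 _
  · obtain ⟨G, α, hα, hG⟩ := hG (fun _ => (φ 0).comp (E : Z →L[ℝ] Y)) fun _ =>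
      ContinuousLinearMap.opNorm_le_bound _ zero_le_one fun z => by
        rw [one_mul, hE]; exact hN4 _
    obtain ⟨x, hx, hx2⟩ := exists_near G hα
    have h1 : |φ 0 (E x)| < δ := hG x hx hx2 0
    obtain ⟨s, hs, hs2⟩ : ∃ s : ℝ, |s| = δ ∧ 0 ≤ (s - φ 0 (E x)) * G (E.symm (e 0)) := by
      obtain ⟨a1, a2⟩ := abs_lt.1 h1
      rcases le_total 0 (G (E.symm (e 0))) with a3 | a3
      · exact ⟨δ, abs_of_pos hδ, mul_nonneg (by linarith) a3⟩
      · exact ⟨-δ, by rw [abs_neg, abs_of_pos hδ], mul_nonneg_of_nonpos_of_nonpos (by linarith) a3⟩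
    have b1 : φ 0 (P (E x) + s • e 0) = s := by rw [map_add, hφP, map_smul, h00]; simp
    have b2 : P (P (E x) + s • e 0) = P (E x) := by rw [map_add, hPP, map_smul, hPe]; simp
    have b3 : p (P (E x)) ≤ 1 := (hN1 _).trans (by rwa [← hE])
    have b4 : ‖E.symm (P (E x) + s • e 0)‖ ≤ 1 := by
      rw [hEs, hN, b1, b2, hs]
      exact max_le b3 (by nlinarith)
    have b5 : G (E.symm (P (E x) + s • e 0)) = G x + (s - φ 0 (E x)) * G (E.symm (e 0)) := by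
      rw [hP]
      simp only [map_add, map_sub, map_smul, E.symm_apply_apply, smul_eq_mul]
      ring
    have b6 : |φ 0 (E (E.symm (P (E x) + s • e 0)))| < δ := hG _ b4 (by linarith) 0
    rw [E.apply_symm_apply, b1, hs] at b6
    exact lt_irrefl _ b6
  · have hf' : ∀ k y, |f k (E.symm y)| ≤ Nδ y := fun k y => by
      rw [← hEs]
      exact ((f k).le_opNorm _).trans (mul_le_of_le_one_left (norm_nonneg _) (hf k))
    obtain ⟨i, j, hij, hcl⟩ := close_pair (fun n k => f k (E.symm (e (n + 1)))) (R := 152)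
      (η := δ / 2) (fun n => (pi_norm_le_iff_of_nonneg (by norm_num)).2 fun k => by
        have a1 := hf' k (e (n + 1))
        have a2 := hN5 (e (n + 1))
        rw [Real.norm_eq_abs]
        linarith [he (n + 1)]) (half_pos hδ)
    let G : StrongDual ℝ Z := (g i j).comp (E : Z →L[ℝ] Y)
    have hG : ∀ z, G z = g i j (E z) := fun z => rfl
    have hG2 : 2 ≤ ‖G‖ := by
      have a1 : ‖E.symm (u i j)‖ ≤ 1 := by
        rw [hEs, hN, hφu, hPu]
        have := p3 i j hij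
        exact max_le this (by rw [abs_zero]; nlinarith [apply_nonneg p (u i j)])
      have a2 := apply_le G _ a1
      rwa [hG, E.apply_symm_apply, hg2 i j hij] at a2
    refine ⟨G, δ / 1218, by positivity, fun z hz hz2 k => ?_⟩
    rw [hG, ← hgP] at hz2
    rw [hE] at hz
    have c1 := p5 i j (P (E z)) hij ((hN1 _).trans hz)
    have c2 := p4 i j (P (E z)) hij
    have c3 : |φ 0 (E z)| ≤ δ + δ / 2436 := by
      have a1 := hN2 (E z)
      have a2 : 1 - δ / 2436 ≤ p (P (E z)) := by linarith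
      have a3 := mul_le_mul_of_nonneg_left a2 (by linarith : 0 ≤ 1 - δ)
      nlinarith
    have c4 : f k z = f k (E.symm (u i j)) + f k (E.symm (P (E z) - u i j)) +
        φ 0 (E z) * f k (E.symm (e 0)) := by
      rw [hP]
      simp only [map_sub, map_smul, E.symm_apply_apply, smul_eq_mul]
      ring
    have c5 : |f k (E.symm (u i j))| < δ / 2 := by
      have := hcl k
      simpa only [u, map_sub] using this
    have c6 : |f k (E.symm (P (E z) - u i j))| ≤ 76 * ‖P (E z) - u i j‖ :=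
      (hf' k _).trans (hN5 _)
    have c7 : |f k (E.symm (e 0))| ≤ 1 := by
      have a1 := (hf' k (e 0)).trans (hN3 _)
      rw [h00, hPe, map_zero] at a1
      simpa using a1
    have c8 : |φ 0 (E z) * f k (E.symm (e 0))| ≤ δ + δ / 2436 := by
      rw [abs_mul]
      exact (mul_le_of_le_one_right (abs_nonneg _) c7).trans c3
    rw [c4]
    have d1 := abs_add_three (f k (E.symm (u i j))) (f k (E.symm (P (E z) - u i j)))
      (φ 0 (E z) * f k (E.symm (e 0)))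
    linarith

theorem good_mono {Z : Type*} [NormedAddCommGroup Z] [NormedSpace ℝ Z] {N : ℕ} {ε ε' : ℝ}
    (h : Good Z N ε) (hε : ε ≤ ε') : Good Z N ε' := fun f hf => by
  obtain ⟨g, α, hα, hg⟩ := h f hf
  exact ⟨g, α, hα, fun x hx hx2 k => (hg x hx hx2 k).trans_le hε⟩

theorem sufficient (I : Type u) [Infinite I] {Y : Type v} [NormedAddCommGroup Y] [NormedSpace ℝ Y]
    {c : ℝ} (h : ¬ FiniteDimensional ℝ Y) (hc : 1 < c) :
    ∃ (X : I → Type v) (_ : ∀ i, NormedAddCommGroup (X i)) (_ : ∀ i, NormedSpace ℝ (X i)),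
      (∀ i, Nonempty (X i ≃L[ℝ] Y)) ∧
      (∀ i j, ∃ T : X i ≃L[ℝ] X j, ‖(T : X i →L[ℝ] X j)‖ * ‖(T.symm : X j →L[ℝ] X i)‖ ≤ c) ∧
      ZeroIsAPEP (lp X 1) ∧ ∀ i, ¬ ZeroIsAPEP (X i) := by
  obtain ⟨N₀, hN⟩ := family h
  obtain ⟨ψ, hψ⟩ : ∃ ψ : I → ℕ, Function.Surjective ψ :=
    ⟨_, Function.invFun_surjective (Infinite.natEmbedding I).injective⟩
  set δ₀ := (c - 1) / (2 * c) with hδ₀
  have hc0 : 0 < c := by linarith
  have h0 : 0 < δ₀ := div_pos (by linarith) (by linarith)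
  have h1 : δ₀ < 1 / 2 := by
    rw [hδ₀, div_lt_iff₀ (by linarith)]; linarith
  let δ : I → ℝ := fun i => δ₀ / (ψ i + 1)
  have hδ : ∀ i, 0 < δ i := fun i => by positivity
  have hδ1 : ∀ i, δ i ≤ δ₀ := fun i =>
    div_le_self h0.le (by linarith [(Nat.cast_nonneg (ψ i) : (0 : ℝ) ≤ ψ i)])
  choose X i1 i2 E hE hbad hgood using fun i => hN (δ i) (hδ i) (by linarith [hδ1 i])
  have hna : ∀ i, ¬ ZeroIsAPEP (X i) := fun i hz => hbad i (zero_iff.1 hz 1 _ (hδ i))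
  have hb0 : 0 < 1 - δ₀ := by linarith
  have hT : ∀ i j, ‖((E i).trans (E j).symm : X i →L[ℝ] X j)‖ ≤ (1 - δ₀)⁻¹ := fun i j => by
    refine ContinuousLinearMap.opNorm_le_bound _ (inv_pos.2 hb0).le fun z => ?_
    change ‖(E j).symm (E i z)‖ ≤ _
    have a1 := (hE j ((E j).symm (E i z))).2
    rw [(E j).apply_symm_apply] at a1
    have a2 := (hE i z).1
    have a3 : 0 ≤ N₀ (E i z) := (norm_nonneg _).trans (hE i z).2
    rw [le_inv_mul_iff₀ hb0]
    nlinarith [hδ1 i]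
  refine ⟨X, i1, i2, fun i => ⟨E i⟩, fun i j => ⟨(E i).trans (E j).symm, ?_⟩,
    zero_iff.2 fun N ε hε => ?_, hna⟩
  · have a1 := mul_le_mul (hT i j) (hT j i) (norm_nonneg _) (inv_pos.2 hb0).le
    refine a1.trans ?_
    rw [← mul_inv, inv_le_iff_one_le_mul₀ (mul_pos hb0 hb0)]
    have a2 : c * (1 - 2 * δ₀) = 1 := by rw [hδ₀]; field_simp; ring
    nlinarith [mul_pos hc0 (mul_pos h0 h0)]
  · obtain ⟨n, hn⟩ := exists_nat_gt (4 * δ₀ / ε)
    obtain ⟨i, hi⟩ := hψ n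
    have := nontrivial_of_not (hna i)
    refine good_mono (sum_of_good (by linarith [hδ i]) i (hgood i N)) ?_
    have a1 : δ i = δ₀ / (n + 1) := by simp only [δ, hi]
    rw [div_lt_iff₀ hε] at hn
    have a2 : δ₀ / (n + 1) ≤ ε / 4 := by
      rw [div_le_iff₀ (by positivity)]
      nlinarith
    linarith

end Pool.Agent.P.MP_c12391_an.R
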